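import Pool.Agent.W662.SK.StmtsB

/-!
# Project SK (helper662): normal form of vectors
-/

set_option autoImplicit false

open scoped InnerProductSpace ENNReal

namespace Pool.Agent.W303.SK.Qa

open Pool.Agent.W662.SK

theorem qa : S_Qa := by
  classical
  intro Γ K _ _ _ _ π Φ Ψ hP x0 hx0 n ζ δ hδ
  have hin : ⟪x0, x0⟫_ℂ = 1 := by
    rw [inner_self_eq_norm_sq_to_K, hx0]
    simp
  choose m x y g z hz using fun i => hP.dense (ζ i) δ hδ
  set w : (j : Fin n) → Fin (m j) → L2 Γ K := fun j q => Φ x0 (y j q) (g j q) (z j q) with hw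
  have hproj : ∀ j q, Φ x0 x0 1 (w j q) = w j q := by
    intro j q
    have h1 : (Φ x0 x0 1 * Φ x0 (y j q) (g j q)) (z j q) = w j q := by
      rw [hP.hmul, hin, one_smul, one_mul]
    exact h1
  have hfac : ∀ j q, Φ (x j q) x0 1 (w j q) = Φ (x j q) (y j q) (g j q) (z j q) := by
    intro j q
    have h1 : (Φ (x j q) x0 1 * Φ x0 (y j q) (g j q)) (z j q) =
        Φ (x j q) (y j q) (g j q) (z j q) := by
      rw [hP.hmul, hin, one_smul, one_mul]
    exact h1
  let e : (Σ j : Fin n, Fin (m j)) ≃ Fin (Fintype.card (Σ j : Fin n, Fin (m j))) :=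
    Fintype.equivFin _
  refine ⟨Fintype.card (Σ j : Fin n, Fin (m j)), fun r => x (e.symm r).1 (e.symm r).2,
    fun i r => if (e.symm r).1 = i then w (e.symm r).1 (e.symm r).2 else 0, ?_, ?_⟩
  · intro i r
    show Φ x0 x0 1 (if (e.symm r).1 = i then w (e.symm r).1 (e.symm r).2 else 0) =
      if (e.symm r).1 = i then w (e.symm r).1 (e.symm r).2 else 0
    split_ifs
    · exact hproj _ _
    · exact map_zero _
  · intro i
    have hsum : ∑ r, Φ (x (e.symm r).1 (e.symm r).2) x0 1
        (if (e.symm r).1 = i then w (e.symm r).1 (e.symm r).2 else 0) =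
        ∑ q, Φ (x i q) (y i q) (g i q) (z i q) := by
      have h1 := Equiv.sum_comp e.symm (fun p : (Σ j : Fin n, Fin (m j)) =>
        Φ (x p.1 p.2) x0 1 (if p.1 = i then w p.1 p.2 else 0))
      rw [h1, Fintype.sum_sigma, Finset.sum_eq_single i]
      · refine Finset.sum_congr rfl fun q _ => ?_
        show Φ (x i q) x0 1 (if i = i then w i q else 0) = _
        rw [if_pos rfl]
        exact hfac i q
      · intro j _ hj
        refine Finset.sum_eq_zero fun q _ => ?_
        show Φ (x j q) x0 1 (if j = i then w j q else 0) = 0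
        rw [if_neg hj, map_zero]
      · intro h
        exact absurd (Finset.mem_univ _) h
    show ‖ζ i - ∑ r, Φ (x (e.symm r).1 (e.symm r).2) x0 1
        (if (e.symm r).1 = i then w (e.symm r).1 (e.symm r).2 else 0)‖ < δ
    rw [hsum]
    exact hz i

end Pool.Agent.W303.SK.Qa
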